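import Pool.Agent.Q260.AH.Db

/-! Project AH (helper260), job AH-LOW (helper38): the lower bound. -/

set_option autoImplicit false

namespace Pool.Agent.Q38.AH

open MeasureTheory Filter Topology Set
open Pool.Agent.Q260.GM Pool.Agent.Q260.AH

lemma kk_ge_one {y : ℝ} (h0 : 0 ≤ y) (h1 : y ≤ 1) : kk 1 1 ≤ kk 1 y := by
  have hs : Real.sinc (1 * 1 / 2) = Real.sin (1 / 2) / (1 / 2) := by
    rw [one_mul, Real.sinc_of_ne_zero (by norm_num)]
  have hs0 : 0 < Real.sin (1 / 2) := Real.sin_pos_of_pos_of_lt_pi (by norm_num)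
    (by linarith [Real.pi_gt_three])
  rcases h0.eq_or_lt with h | h
  · rw [← h]
    unfold kk
    simp only [mul_zero, zero_div, Real.sinc_zero, one_pow, mul_one, one_mul]
    rw [sq_le_one_iff_abs_le_one, Real.sinc_of_ne_zero (by norm_num), abs_of_pos (by positivity),
      div_le_one (by norm_num)]
    exact (Real.sin_lt (by norm_num)).le
  · unfold kk
    have hy : y / 2 ≠ 0 := by positivity
    rw [hs, one_pow, one_mul, one_mul, one_mul, Real.sinc_of_ne_zero hy]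
    have hc := strictConcaveOn_sin_Icc.concaveOn.2
      (show (1 / 2 : ℝ) ∈ Icc 0 Real.pi from ⟨by norm_num, by linarith [Real.pi_gt_three]⟩)
      (show (0 : ℝ) ∈ Icc 0 Real.pi from ⟨le_rfl, Real.pi_pos.le⟩)
      h0 (show 0 ≤ 1 - y by linarith) (by ring)
    simp only [smul_eq_mul, mul_zero, add_zero, Real.sin_zero] at hc
    have e : y * (1 / 2) = y / 2 := by ring
    rw [e] at hc
    apply pow_le_pow_left₀ (by positivity)
    rw [div_le_div_iff₀ (by norm_num) (by positivity)]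
    linarith

lemma kk_one_le : kk 1 1 ≤ 5 / 2 := (kk_le 1 1).trans (by norm_num)

lemma kk_int_le {A : ℝ} (hA : 0 ≤ A) : ∫ y in (0 : ℝ)..A, kk 1 y ≤ Real.pi := by
  rw [← kk_one_int.2, intervalIntegral.integral_of_le hA]
  exact setIntegral_mono_set kk_one_int.1 (ae_of_all _ fun y => kk_nonneg 1 y)
    Ioc_subset_Ioi_self.eventuallyLE

/-- the upper bound for the error terms -/
lemma kh_le {κ A C0 : ℝ} (hA : 0 ≤ A) (hκ1 : κ ≤ 1) (hC0 : 0 ≤ C0) (hgc : Continuous (gd κ 1))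
    (hgi : Integrable (fun y => gd κ 1 y / (1 + y ^ 2)))
    (hb : ∫ y in Ioi (0 : ℝ), gd κ 1 y / (1 + y ^ 2) ≤ C0 * (1 / (1 + 0) + Real.sqrt κ)) :
    ∫ y in (0 : ℝ)..A, kk 1 y * (gd κ 1 y + 1) ≤ 10 * C0 + Real.pi := by
  have i1 : Integrable (fun y => kk 1 y * gd κ 1 y) :=
    gd_integrable (B := 5) (kk_cont 1) hgc (fun y => by
      rw [abs_of_nonneg (kk_nonneg 1 y)]
      exact (kk_le 1 y).trans (le_of_eq (by norm_num))) hgi
  have e1 : ∫ y in (0 : ℝ)..A, kk 1 y * (gd κ 1 y + 1) =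
      (∫ y in (0 : ℝ)..A, kk 1 y * gd κ 1 y) + ∫ y in (0 : ℝ)..A, kk 1 y := by
    rw [← intervalIntegral.integral_add]
    · refine intervalIntegral.integral_congr fun y _ => ?_
      ring
    · exact i1.intervalIntegrable
    · exact (kk_cont 1).intervalIntegrable _ _
  have e2 : ∫ y in (0 : ℝ)..A, kk 1 y * gd κ 1 y ≤ 10 * C0 := by
    rw [intervalIntegral.integral_of_le hA]
    calc ∫ y in Ioc 0 A, kk 1 y * gd κ 1 y ≤ ∫ y in Ioi (0 : ℝ), kk 1 y * gd κ 1 y :=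
          setIntegral_mono_set i1.integrableOn (ae_of_all _ fun y =>
            mul_nonneg (kk_nonneg 1 y) (gd_nonneg κ 1 y)) Ioc_subset_Ioi_self.eventuallyLE
      _ ≤ ∫ y in Ioi (0 : ℝ), 5 * (gd κ 1 y / (1 + y ^ 2)) := by
          refine setIntegral_mono_on i1.integrableOn (hgi.const_mul _).integrableOn
            measurableSet_Ioi fun y _ => ?_
          calc kk 1 y * gd κ 1 y ≤ (1 ^ 2 + 4) * (1 / (1 + y ^ 2)) * gd κ 1 y :=
                mul_le_mul_of_nonneg_right (kk_le 1 y) (gd_nonneg κ 1 y)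
            _ = _ := by ring
      _ = 5 * ∫ y in Ioi (0 : ℝ), gd κ 1 y / (1 + y ^ 2) := integral_const_mul _ _
      _ ≤ 5 * (C0 * (1 / (1 + 0) + Real.sqrt κ)) := by linarith
      _ ≤ 10 * C0 := by
          have h1 : Real.sqrt κ ≤ 1 := Real.sqrt_le_one.2 hκ1
          have h2 : C0 * (1 / (1 + 0) + Real.sqrt κ) ≤ C0 * 2 :=
            mul_le_mul_of_nonneg_left (by norm_num; linarith) hC0
          linarith
  rw [e1]
  linarith [kk_int_le hA]

/-- the tail -/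
lemma tail_le {κ A C' : ℝ} {N : ℕ} {cc : ℕ → ℝ}
    (hg : ∀ k < N, Continuous (gd κ (k + 1)) ∧ Integrable (fun y => gd κ (k + 1) y / (1 + y ^ 2)) ∧
      ∫ y in Ioi A, gd κ (k + 1) y / (1 + y ^ 2) ≤ C' * (1 / (1 + A) + Real.sqrt κ)) :
    |∫ y in Ioi A, kk 1 y * gc N cc κ y| ≤
      5 * (∑ k ∈ Finset.range N, |cc k|) * (C' * (1 / (1 + A) + Real.sqrt κ)) := by
  have i1 : ∀ k < N, Integrable (fun y => kk 1 y * gd κ (k + 1) y) := fun k hk =>
    gd_integrable (B := 5) (kk_cont 1) (hg k hk).1 (fun y => by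
      rw [abs_of_nonneg (kk_nonneg 1 y)]
      exact (kk_le 1 y).trans (le_of_eq (by norm_num))) (hg k hk).2.1
  have e1 : ∫ y in Ioi A, kk 1 y * gc N cc κ y =
      ∑ k ∈ Finset.range N, cc k * ∫ y in Ioi A, kk 1 y * gd κ (k + 1) y := by
    have : ∀ y, kk 1 y * gc N cc κ y =
        ∑ k ∈ Finset.range N, cc k * (kk 1 y * gd κ (k + 1) y) := by
      intro y
      unfold gc
      rw [Finset.mul_sum]
      exact Finset.sum_congr rfl fun k _ => by ring
    simp only [this]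
    rw [integral_finsetSum]
    · exact Finset.sum_congr rfl fun k _ => integral_const_mul _ _
    · intro k hk
      exact ((i1 k (Finset.mem_range.1 hk)).const_mul _).integrableOn
  rw [e1]
  refine (Finset.abs_sum_le_sum_abs _ _).trans ?_
  rw [Finset.mul_sum, Finset.sum_mul]
  refine Finset.sum_le_sum fun k hk => ?_
  have hk' := Finset.mem_range.1 hk
  rw [abs_mul]
  have h0 : 0 ≤ ∫ y in Ioi A, kk 1 y * gd κ (k + 1) y :=
    setIntegral_nonneg measurableSet_Ioi fun y _ => mul_nonneg (kk_nonneg 1 y) (gd_nonneg _ _ y)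
  rw [abs_of_nonneg h0]
  have h1 : ∫ y in Ioi A, kk 1 y * gd κ (k + 1) y ≤
      5 * (C' * (1 / (1 + A) + Real.sqrt κ)) := by
    calc ∫ y in Ioi A, kk 1 y * gd κ (k + 1) y ≤
          ∫ y in Ioi A, 5 * (gd κ (k + 1) y / (1 + y ^ 2)) := by
          refine setIntegral_mono_on (i1 k hk').integrableOn
            (((hg k hk').2.1).const_mul _).integrableOn measurableSet_Ioi fun y _ => ?_
          calc kk 1 y * gd κ (k + 1) y ≤ (1 ^ 2 + 4) * (1 / (1 + y ^ 2)) * gd κ (k + 1) y :=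
                mul_le_mul_of_nonneg_right (kk_le 1 y) (gd_nonneg _ _ y)
            _ = _ := by ring
      _ = 5 * ∫ y in Ioi A, gd κ (k + 1) y / (1 + y ^ 2) := integral_const_mul _ _
      _ ≤ _ := by linarith [(hg k hk').2.2]
  calc |cc k| * ∫ y in Ioi A, kk 1 y * gd κ (k + 1) y ≤
        |cc k| * (5 * (C' * (1 / (1 + A) + Real.sqrt κ))) :=
        mul_le_mul_of_nonneg_left h1 (abs_nonneg _)
    _ = _ := by ring

/-- splitting an integral against the kernel -/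
lemma split_int {g : ℝ → ℝ} (hg : Continuous g) {A : ℝ} :
    ∫ y in (0 : ℝ)..A, kk 1 y * g y = (∫ y in (0 : ℝ)..1, (kk 1 y - kk 1 1) * g y) +
      kk 1 1 * (∫ y in (0 : ℝ)..1, g y) + ∫ y in (1 : ℝ)..A, kk 1 y * g y := by
  have hk := kk_cont 1
  have i1 : ∀ a b, IntervalIntegrable (fun y => kk 1 y * g y) volume a b := fun a b =>
    (hk.mul hg).intervalIntegrable a b
  rw [← intervalIntegral.integral_add_adjacent_intervals (i1 0 1) (i1 1 A)]
  congr 1
  rw [← intervalIntegral.integral_const_mul, ← intervalIntegral.integral_add]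
  · refine intervalIntegral.integral_congr fun y _ => ?_
    ring
  · exact ((hk.sub continuous_const).mul hg).intervalIntegrable _ _
  · exact (continuous_const.mul hg).intervalIntegrable _ _

theorem t_LOW (h1 : S_WA) (h2 : S_RS) (h3 : S_GB) (h4 : S_WP) (h5 : S_EL) : S_LOW := by
  classical
  intro hRH hL2 R η hR hη
  obtain ⟨C1, hC1, hWP⟩ := h4 hRH hL2
  obtain ⟨C0, hC0, hgen0⟩ := ev_gen hRH (a1 := 1) (a2 := 1) one_pos le_rfl
  have hpi := Real.pi_pos
  have hpi3 := Real.pi_gt_three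
  have h2pi : 2 / Real.pi ≤ 1 := by
    rw [div_le_one hpi]
    linarith
  have h2pi0 : 0 < 2 / Real.pi := by positivity
  set c : ℝ := (R ^ 2 - R) / 4 with hc
  set k1 : ℝ := kk 1 1 with hk1
  have hk10 : 0 ≤ k1 := kk_nonneg 1 1
  have hk1le : k1 ≤ 5 / 2 := kk_one_le
  obtain ⟨ε, hε0, hε1, hε2⟩ : ∃ ε : ℝ, 0 < ε ∧ ε ≤ 1 ∧ (10 * C0 + Real.pi + C1) * ε ≤ η / 4 := by
    refine ⟨min 1 (η / 4 / (10 * C0 + Real.pi + C1)), by positivity, min_le_left _ _, ?_⟩
    calc (10 * C0 + Real.pi + C1) * min 1 (η / 4 / (10 * C0 + Real.pi + C1)) ≤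
          (10 * C0 + Real.pi + C1) * (η / 4 / (10 * C0 + Real.pi + C1)) :=
          mul_le_mul_of_nonneg_left (min_le_right _ _) (by positivity)
      _ = η / 4 := by field_simp
  obtain ⟨N, cc, hApx⟩ := h1 R ε hR hε0
  obtain ⟨C', hC', hgen⟩ := ev_gen hRH (a1 := 1) (a2 := N + 1) one_pos (by simp)
  set Sc : ℝ := ∑ k ∈ Finset.range N, |cc k| with hSc
  have hSc0 : 0 ≤ Sc := Finset.sum_nonneg fun k _ => abs_nonneg _
  have hkN : ∀ k < N, ((k : ℝ) + 1) ∈ Icc (1 : ℝ) (N + 1) := by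
    intro k hk
    have : (k : ℝ) < N := by exact_mod_cast hk
    exact ⟨by linarith [Nat.cast_nonneg (α := ℝ) k], by linarith⟩
  have h1N : (1 : ℝ) ∈ Icc (1 : ℝ) (N + 1) := ⟨le_rfl, by simp⟩
  -- the cut
  obtain ⟨A, hA1, hA2, hA3⟩ : ∃ A : ℝ, 1 < A ∧ |c| * (Real.pi - ∫ y in (0 : ℝ)..A, kk 1 y) ≤ η / 8 ∧
      5 * Sc * (C' * (1 / (1 + A))) ≤ η / 8 := by
    have t1 : Tendsto (fun A : ℝ => |c| * (Real.pi - ∫ y in (0 : ℝ)..A, kk 1 y)) atTop
        (𝓝 (|c| * (Real.pi - Real.pi))) := by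
      have := intervalIntegral_tendsto_integral_Ioi 0 kk_one_int.1 tendsto_id
      rw [kk_one_int.2] at this
      exact (tendsto_const_nhds.sub this).const_mul _
    have t2 : Tendsto (fun A : ℝ => 5 * Sc * (C' * (1 / (1 + A)))) atTop (𝓝 (5 * Sc * (C' * 0))) := by
      have : Tendsto (fun A : ℝ => 1 / (1 + A)) atTop (𝓝 0) := by
        simp only [one_div]
        exact tendsto_inv_atTop_zero.comp (tendsto_atTop_add_const_left atTop 1 tendsto_id)
      exact (this.const_mul _).const_mul _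
    rw [sub_self, mul_zero] at t1
    rw [mul_zero, mul_zero] at t2
    have hη8 : (0 : ℝ) < η / 8 := by positivity
    obtain ⟨A, ⟨h6, h7⟩, h8⟩ := (((t1.eventually_le_const hη8).and (t2.eventually_le_const hη8)).and
      (eventually_gt_atTop 1)).exists
    exact ⟨A, h8, h6, h7⟩
  have hA0 : 0 < A := by linarith
  -- truncated densities
  set P : ℝ → Prop := fun κ => ∀ a ∈ Icc (1 : ℝ) (N + 1), Continuous (gd κ a) with hP
  have hge : ∀ᶠ κ : ℝ in 𝓝[>] 0, P κ := by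
    filter_upwards [hgen] with κ hk a ha
    exact (hk.2.2.2 a ha).1
  have hgcc : ∀ κ, P κ → Continuous (gc N cc κ) := by
    intro κ hκ
    unfold gc
    exact continuous_finsetSum _ fun k hk =>
      continuous_const.mul (hκ _ (hkN k (Finset.mem_range.1 hk)))
  have hmc : ∀ κ, P κ → Continuous (fun y => ∑ k ∈ Finset.range N, |cc k| * gd κ (k + 1) y) := by
    intro κ hκ
    exact continuous_finsetSum _ fun k hk =>
      continuous_const.mul (hκ _ (hkN k (Finset.mem_range.1 hk)))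
  set g : ℝ → ℝ → ℝ := fun κ y => if P κ then gc N cc κ y else 0 with hg
  set m : ℝ → ℝ → ℝ := fun κ y =>
    if P κ then ∑ k ∈ Finset.range N, |cc k| * gd κ (k + 1) y else 0 with hm
  set h : ℝ → ℝ → ℝ := fun κ y => if P κ then gd κ 1 y + 1 else 0 with hh
  have hgP : ∀ κ, P κ → g κ = gc N cc κ := fun κ hκ => by funext y; simp only [hg, if_pos hκ]
  have hmP : ∀ κ, P κ → m κ = fun y => ∑ k ∈ Finset.range N, |cc k| * gd κ (k + 1) y :=
    fun κ hκ => by funext y; simp only [hm, if_pos hκ]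
  have hhP : ∀ κ, P κ → h κ = fun y => gd κ 1 y + 1 :=
    fun κ hκ => by funext y; simp only [hh, if_pos hκ]
  have hgN : ∀ κ, ¬ P κ → g κ = fun _ => 0 := fun κ hκ => by funext y; simp only [hg, if_neg hκ]
  have hmN : ∀ κ, ¬ P κ → m κ = fun _ => 0 := fun κ hκ => by funext y; simp only [hm, if_neg hκ]
  have hhN : ∀ κ, ¬ P κ → h κ = fun _ => 0 := fun κ hκ => by funext y; simp only [hh, if_neg hκ]
  have hgi : ∀ κ a b, IntervalIntegrable (g κ) volume a b := by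
    intro κ a b
    by_cases hκ : P κ
    · rw [hgP κ hκ]; exact (hgcc κ hκ).intervalIntegrable _ _
    · rw [hgN κ hκ]; exact intervalIntegrable_const
  have hmi : ∀ κ a b, IntervalIntegrable (m κ) volume a b := by
    intro κ a b
    by_cases hκ : P κ
    · rw [hmP κ hκ]; exact (hmc κ hκ).intervalIntegrable _ _
    · rw [hmN κ hκ]; exact intervalIntegrable_const
  have hhi : ∀ κ a b, IntervalIntegrable (h κ) volume a b := by
    intro κ a b
    by_cases hκ : P κ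
    · rw [hhP κ hκ]; exact ((hκ 1 h1N).add continuous_const).intervalIntegrable _ _
    · rw [hhN κ hκ]; exact intervalIntegrable_const
  have hgm : ∀ κ y, |g κ y| ≤ m κ y := by
    intro κ y
    by_cases hκ : P κ
    · rw [hgP κ hκ, hmP κ hκ]
      unfold gc
      refine (Finset.abs_sum_le_sum_abs _ _).trans (Finset.sum_le_sum fun k _ => ?_)
      rw [abs_mul, abs_of_nonneg (gd_nonneg _ _ _)]
    · rw [hgN κ hκ, hmN κ hκ, abs_zero]
  have hh0 : ∀ κ y, 0 ≤ h κ y := by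
    intro κ y
    by_cases hκ : P κ
    · rw [hhP κ hκ]
      have := gd_nonneg κ 1 y
      positivity
    · rw [hhN κ hκ]
  -- the bound
  set M : ℝ := Sc * (C' * (1 + A)) + (C' * (1 + A) + A) with hM
  have hM0 : 0 ≤ M := by positivity
  have hAκ : ∀ᶠ κ : ℝ in 𝓝[>] 0, A ≤ 1 / κ ^ 2 := by
    filter_upwards [ev_pos, ev_le (c := 1) one_pos, ev_le (c := 1 / A) (by positivity)] with κ k1 k2 k3
    rw [le_div_iff₀ (by positivity)]
    rw [le_div_iff₀ hA0] at k3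
    nlinarith
  have hMm : ∀ᶠ κ : ℝ in 𝓝[>] 0, ∫ y in (0 : ℝ)..A, m κ y ≤ M := by
    filter_upwards [hgen, hge, hAκ] with κ hk hκ hκA
    rw [hmP κ hκ, intervalIntegral.integral_finsetSum]
    · have : ∑ k ∈ Finset.range N, ∫ y in (0 : ℝ)..A, |cc k| * gd κ (k + 1) y ≤
          Sc * (C' * (1 + A)) := by
        rw [hSc, Finset.sum_mul]
        refine Finset.sum_le_sum fun k hk' => ?_
        rw [intervalIntegral.integral_const_mul]
        exact mul_le_mul_of_nonneg_left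
          ((hk.2.2.2 _ (hkN k (Finset.mem_range.1 hk'))).2.2.2 A hA0.le hκA) (abs_nonneg _)
      have : 0 ≤ C' * (1 + A) + A := by positivity
      rw [hM]
      linarith
    · intro k hk'
      exact (continuous_const.mul (hκ _ (hkN k (Finset.mem_range.1 hk')))).intervalIntegrable _ _
  have hMh : ∀ᶠ κ : ℝ in 𝓝[>] 0, ∫ y in (0 : ℝ)..A, h κ y ≤ M := by
    filter_upwards [hgen, hge, hAκ] with κ hk hκ hκA
    rw [hhP κ hκ, intervalIntegral.integral_add ((hκ 1 h1N).intervalIntegrable _ _)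
      intervalIntegrable_const, intervalIntegral.integral_const, smul_eq_mul]
    have h6 := (hk.2.2.2 1 h1N).2.2.2 A hA0.le hκA
    have : 0 ≤ Sc * (C' * (1 + A)) := by positivity
    rw [hM]
    linarith
  have hwin : ∀ p q : ℝ, 0 ≤ p → p < q → q ≤ A → ∀ δ : ℝ, 0 < δ →
      ∀ᶠ κ : ℝ in 𝓝[>] 0, c * (q - p) - ε * (∫ y in p..q, h κ y) - δ ≤ ∫ y in p..q, g κ y := by
    intro p q hp hpq _ δ hδ
    filter_upwards [h3 hRH R ε p q (δ / 2) N cc hR hε0 hε1 hApx hp hpq (half_pos hδ),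
      h5 R p q (δ / 2) hR hp hpq (half_pos hδ), hge] with κ k2 k3 hκ
    rw [hgP κ hκ, hhP κ hκ]
    have k4 := (abs_le.1 k2).1
    rw [← hc] at k4
    beta_reduce
    linarith
  set δ : ℝ := η / 40 with hδ
  have hδ0 : 0 < δ := by positivity
  have hRS1 := h2 g m h (fun y => kk 1 y - kk 1 1) A c ε M hA0 hε0.le hM0 hgi hmi hhi hgm hh0 hMm hMh
    ((kk_cont 1).sub continuous_const) hwin 0 1 le_rfl one_pos hA1.le
    (fun y hy => sub_nonneg.2 (kk_ge_one hy.1 hy.2)) δ hδ0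
  have hRS2 := h2 g m h (kk 1) A c ε M hA0 hε0.le hM0 hgi hmi hhi hgm hh0 hMm hMh
    (kk_cont 1) hwin 1 A zero_le_one hA1 le_rfl (fun y _ => kk_nonneg 1 y) δ hδ0
  have hGB1 := h3 hRH R ε 0 1 δ N cc hR hε0 hε1 hApx le_rfl one_pos hδ0
  have hsq : ∀ᶠ κ : ℝ in 𝓝[>] 0, 5 * Sc * (C' * Real.sqrt κ) ≤ η / 4 := by
    have t1 : Tendsto (fun κ : ℝ => 5 * Sc * (C' * Real.sqrt κ)) (𝓝[>] 0)
        (𝓝 (5 * Sc * (C' * Real.sqrt 0))) := by
      have : Continuous fun κ : ℝ => 5 * Sc * (C' * Real.sqrt κ) := by fun_prop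
      exact (this.tendsto 0).mono_left nhdsWithin_le_nhds
    rw [Real.sqrt_zero, mul_zero, mul_zero] at t1
    exact t1.eventually_le_const (by positivity)
  filter_upwards [hRS1, hRS2, hGB1, hWP R ε δ N cc hR hε0 hδ0 hApx, hgen, hgen0, hge, hAκ, hsq]
    with κ r1 r2 r3 r4 hk hk0 hκ hκA r5
  obtain ⟨hκ0, hκ1, hL1, hka⟩ := hk
  obtain ⟨-, -, -, hk0a⟩ := hk0
  obtain ⟨hg1c, hg1i, hg1b, -⟩ := hk0a 1 ⟨le_rfl, le_rfl⟩
  have hLp : 0 < LL κ := by linarith
  have hQ : 0 < κ * LL κ ^ 2 := by positivity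
  rw [hgP κ hκ, hhP κ hκ] at r1 r2
  beta_reduce at r1 r2
  have hhc : Continuous fun y => gd κ 1 y + 1 := hg1c.add continuous_const
  -- the upper bound for the error
  have s1 : ∫ y in (0 : ℝ)..A, kk 1 y * (gd κ 1 y + 1) ≤ 10 * C0 + Real.pi :=
    kh_le hA0.le hκ1 hC0.le hg1c hg1i (hg1b 0 le_rfl (by positivity))
  rw [split_int hhc] at s1
  -- the tail
  have s2 := tail_le (κ := κ) (A := A) (C' := C') (N := N) (cc := cc) (fun k hk =>
    ⟨(hka _ (hkN k hk)).1, (hka _ (hkN k hk)).2.1, (hka _ (hkN k hk)).2.2.1 A hA0.le hκA⟩)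
  -- the integral
  have iK : IntegrableOn (fun y => kk 1 y * gc N cc κ y) (Ioi 0) := by
    have : (fun y => kk 1 y * gc N cc κ y) = fun y =>
        ∑ k ∈ Finset.range N, cc k * (kk 1 y * gd κ (k + 1) y) := by
      funext y
      unfold gc
      rw [Finset.mul_sum]
      exact Finset.sum_congr rfl fun k _ => by ring
    rw [this]
    refine (integrable_finsetSum _ fun k hk => ?_).integrableOn
    have hk' := Finset.mem_range.1 hk
    exact (gd_integrable (B := 5) (kk_cont 1) (hka _ (hkN k hk')).1 (fun y => by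
      rw [abs_of_nonneg (kk_nonneg 1 y)]
      exact (kk_le 1 y).trans (le_of_eq (by norm_num))) (hka _ (hkN k hk')).2.1).const_mul _
  have s3 : ∫ y in Ioi (0 : ℝ), kk 1 y * gc N cc κ y =
      (∫ y in (0 : ℝ)..A, kk 1 y * gc N cc κ y) + ∫ y in Ioi A, kk 1 y * gc N cc κ y := by
    rw [intervalIntegral.integral_of_le hA0.le, ← Ioc_union_Ioi_eq_Ioi hA0.le,
      setIntegral_union Ioc_disjoint_Ioi_same measurableSet_Ioi]
    · exact iK.mono_set Ioc_subset_Ioi_self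
    · exact iK.mono_set (Ioi_subset_Ioi hA0.le)
  rw [split_int (hgcc κ hκ)] at s3
  have s4 : ∫ y in (0 : ℝ)..A, kk 1 y = (∫ y in (0 : ℝ)..1, (kk 1 y - kk 1 1)) + kk 1 1 +
      ∫ y in (1 : ℝ)..A, kk 1 y := by
    have := split_int (g := fun _ => 1) continuous_const (A := A)
    simpa using this
  set I := ∫ y in Ioi (0 : ℝ), kk 1 y * gc N cc κ y with hI
  set a1 := ∫ y in (0 : ℝ)..1, (kk 1 y - kk 1 1) * gc N cc κ y
  set a2 := ∫ y in (0 : ℝ)..1, gc N cc κ y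
  set a3 := ∫ y in (1 : ℝ)..A, kk 1 y * gc N cc κ y
  set a4 := ∫ y in Ioi A, kk 1 y * gc N cc κ y
  set b1 := ∫ y in (0 : ℝ)..1, (kk 1 y - kk 1 1) * (gd κ 1 y + 1)
  set b2 := ∫ y in (0 : ℝ)..1, (gd κ 1 y + 1)
  set b3 := ∫ y in (1 : ℝ)..A, kk 1 y * (gd κ 1 y + 1)
  set e1 := ∫ y in (0 : ℝ)..1, (kk 1 y - kk 1 1)
  set e3 := ∫ y in (1 : ℝ)..A, kk 1 y
  set E := EX R κ 0 1
  have r3' := (abs_le.1 r3).1
  rw [← hc] at r3'
  have q1 : k1 * (E + c - ε * b2 - δ) ≤ k1 * a2 := by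
    apply mul_le_mul_of_nonneg_left _ hk10
    linarith
  have q2 : ε * (b1 + k1 * b2 + b3) ≤ ε * (10 * C0 + Real.pi) :=
    mul_le_mul_of_nonneg_left s1 hε0.le
  have q3 : c * (∫ y in (0 : ℝ)..A, kk 1 y) ≥ c * Real.pi - η / 8 := by
    have h6 : 0 ≤ Real.pi - ∫ y in (0 : ℝ)..A, kk 1 y := sub_nonneg.2 (kk_int_le hA0.le)
    have h7 : c * (Real.pi - ∫ y in (0 : ℝ)..A, kk 1 y) ≤ |c| * (Real.pi - ∫ y in (0 : ℝ)..A, kk 1 y) :=
      mul_le_mul_of_nonneg_right (le_abs_self c) h6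
    linarith
  rw [s4] at q3
  have q4 := (abs_le.1 s2).1
  have q5 : k1 * δ ≤ 5 / 2 * δ := mul_le_mul_of_nonneg_right hk1le hδ0.le
  have q6 : I ≥ c * Real.pi + k1 * E - (η / 8 + ε * (10 * C0 + Real.pi) + 9 / 2 * δ +
      5 * Sc * (C' * (1 / (1 + A) + Real.sqrt κ))) := by
    have h6 : k1 * (E + c - ε * b2 - δ) = k1 * E + k1 * c - ε * (k1 * b2) - k1 * δ := by ring
    have h7 : c * (e1 + k1 + e3) = c * e1 + k1 * c + c * e3 := by ring
    have h8 : ε * (b1 + k1 * b2 + b3) = ε * b1 + ε * (k1 * b2) + ε * b3 := by ring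
    rw [h6] at q1
    rw [h7] at q3
    rw [h8] at q2
    rw [← hSc] at q4
    linarith
  have q7 : 5 * Sc * (C' * (1 / (1 + A) + Real.sqrt κ)) ≤ 3 * η / 8 := by
    have : 5 * Sc * (C' * (1 / (1 + A) + Real.sqrt κ)) =
      5 * Sc * (C' * (1 / (1 + A))) + 5 * Sc * (C' * Real.sqrt κ) := by ring
    rw [this]
    linarith
  have q8 : 2 / Real.pi * I ≥ (R ^ 2 - R) / 2 + 2 / Real.pi * k1 * E -
      (η / 8 + ε * (10 * C0 + Real.pi) + 9 / 2 * δ + 3 * η / 8) := by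
    have h6 : I ≥ c * Real.pi + k1 * E - (η / 8 + ε * (10 * C0 + Real.pi) + 9 / 2 * δ + 3 * η / 8) := by
      linarith
    have h7 := mul_le_mul_of_nonneg_left h6 h2pi0.le
    have h8 : 2 / Real.pi * (η / 8 + ε * (10 * C0 + Real.pi) + 9 / 2 * δ + 3 * η / 8) ≤
        1 * (η / 8 + ε * (10 * C0 + Real.pi) + 9 / 2 * δ + 3 * η / 8) :=
      mul_le_mul_of_nonneg_right h2pi (by positivity)
    have h9 : 2 / Real.pi * (c * Real.pi + k1 * E -
        (η / 8 + ε * (10 * C0 + Real.pi) + 9 / 2 * δ + 3 * η / 8)) =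
        (R ^ 2 - R) / 2 + 2 / Real.pi * k1 * E -
          2 / Real.pi * (η / 8 + ε * (10 * C0 + Real.pi) + 9 / 2 * δ + 3 * η / 8) := by
      rw [hc]
      field_simp
      ring
    linarith
  have q9 := (abs_le.1 r4).1
  have q10 : (R ^ 2 - R) / 2 + 2 / Real.pi * k1 * E - η ≤ 2 / Real.pi * I - (C1 * ε + δ) := by
    have : ε * (10 * C0 + Real.pi) + C1 * ε = (10 * C0 + Real.pi + C1) * ε := by ring
    linarith
  calc κ * LL κ ^ 2 * ((R ^ 2 - R) / 2 + 2 / Real.pi * k1 * E - η) ≤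
        κ * LL κ ^ 2 * (2 / Real.pi * I - (C1 * ε + δ)) := mul_le_mul_of_nonneg_left q10 hQ.le
    _ = 2 / Real.pi * (κ * LL κ ^ 2 * I) - (C1 * ε + δ) * (κ * LL κ ^ 2) := by ring
    _ ≤ WV R κ := by linarith

end Pool.Agent.Q38.AH
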